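import Pool.Agent.W202.AH.Stm

/-!
# AHP-2 (subtask 1320): the pair sum of a dyadic block near a frequency in `(1, 3/2)`

The Gaussian lower bound is integrated over the frequency against a triangle and the Gaussian
weight is dropped.
-/

open Complex Filter Topology Set MeasureTheory

namespace Pool.Agent.W762.AHP2

open H177.Lat
open SG (ord NZ)
open H370 (Zf mult NN good_zeta mem_Zf NN_eq zset)
open H370.A2 (rh_line pair_weight)
open H370.SI (nn_short)
open W202.AH (QQ GaussLower BlockLower)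

/-- the real part of the Gaussian pair sum on the critical line -/
lemma PPair_rh (hRH : RiemannHypothesis) {A B : ℝ} (hA : 1 ≤ A) (b u : ℝ) :
    (H343.PPair (H343.kG b) u (Zf riemannZeta A B)
      (fun s => (mult riemannZeta s : ℝ))).re =
    ∑ s ∈ Zf riemannZeta A B, ∑ s' ∈ Zf riemannZeta A B,
      (mult riemannZeta s : ℝ) * (mult riemannZeta s' : ℝ) *
        (Real.cos (u * (s.im - s'.im)) * Real.exp (-(b * (s.im - s'.im) ^ 2 / 4))) := by
  unfold H343.PPair
  rw [Complex.re_sum]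
  refine Finset.sum_congr rfl fun s hs => ?_
  rw [Complex.re_sum]
  refine Finset.sum_congr rfl fun s' hs' => ?_
  rw [mem_Zf good_zeta hA] at hs hs'
  have h1 := rh_line hRH hs
  have h2 := rh_line hRH hs'
  have e : s + (starRingEnd ℂ) s' - 1 = ((s.im - s'.im : ℝ) : ℂ) * I := by
    apply Complex.ext
    · simp [h1, h2]
      norm_num
    · simp
      ring
  rw [e, Complex.re_ofReal_mul]
  congr 1
  unfold H343.kG
  rw [← Complex.exp_add, Complex.exp_re]
  have e2 : (u : ℂ) * (((s.im - s'.im : ℝ) : ℂ) * I) + (b : ℂ) * (((s.im - s'.im : ℝ) : ℂ) * I) ^ 2 / 4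
      = ((-(b * (s.im - s'.im) ^ 2 / 4) : ℝ) : ℂ) + ((u * (s.im - s'.im) : ℝ) : ℂ) * I := by
    rw [mul_pow, I_sq]
    push_cast
    ring
  rw [e2]
  simp only [Complex.add_re, Complex.ofReal_re, Complex.mul_re, Complex.I_re, Complex.ofReal_im,
    Complex.I_im, Complex.add_im, Complex.mul_im]
  ring_nf

/-- dropping the Gaussian weight -/
lemma drop_gauss (b L d C r : ℝ) (hb : 0 < b) (hL : 0 < L)
    (hr : |r| * (d * L / (2 * Real.pi)) ^ 2 ≤ C) :
    |r * Real.exp (-(b * d ^ 2 / 4)) - r| ≤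
      (b / 4 + 1) * (C * (4 * Real.pi ^ 2)) / L ^ 2 * (1 / (1 + d ^ 2)) := by
  have hpi := Real.pi_pos
  have hd2 : 0 ≤ d ^ 2 := sq_nonneg d
  have he1 : Real.exp (-(b * d ^ 2 / 4)) ≤ 1 := by
    rw [Real.exp_le_one_iff]
    have : 0 ≤ b * d ^ 2 / 4 := by positivity
    linarith
  have he2 : (1 - Real.exp (-(b * d ^ 2 / 4))) * (1 + d ^ 2) ≤ (b / 4 + 1) * d ^ 2 := by
    have h1 := Real.add_one_le_exp (-(b * d ^ 2 / 4))
    have h2 := Real.exp_pos (-(b * d ^ 2 / 4))
    have h3 : (1 - Real.exp (-(b * d ^ 2 / 4))) * d ^ 2 ≤ 1 * d ^ 2 :=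
      mul_le_mul_of_nonneg_right (by linarith) hd2
    nlinarith
  have e1 : |r * Real.exp (-(b * d ^ 2 / 4)) - r| = |r| * (1 - Real.exp (-(b * d ^ 2 / 4))) := by
    have : r * Real.exp (-(b * d ^ 2 / 4)) - r = -(r * (1 - Real.exp (-(b * d ^ 2 / 4)))) := by ring
    rw [this, abs_neg, abs_mul, abs_of_nonneg (by linarith : 0 ≤ 1 - Real.exp (-(b * d ^ 2 / 4)))]
  rw [e1, mul_one_div, le_div_iff₀ (by positivity)]
  have e2 : |r| * (d * L / (2 * Real.pi)) ^ 2 = |r| * d ^ 2 * (L ^ 2 / (4 * Real.pi ^ 2)) := by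
    field_simp
    ring
  rw [e2] at hr
  have h3 : |r| * d ^ 2 ≤ C * (4 * Real.pi ^ 2) / L ^ 2 := by
    rw [le_div_iff₀ (by positivity)]
    have h4 := mul_le_mul_of_nonneg_right hr (by positivity : 0 ≤ 4 * Real.pi ^ 2)
    have h5 : |r| * d ^ 2 * (L ^ 2 / (4 * Real.pi ^ 2)) * (4 * Real.pi ^ 2) = |r| * d ^ 2 * L ^ 2 := by
      field_simp
    linarith
  have hr0 := abs_nonneg r
  calc |r| * (1 - Real.exp (-(b * d ^ 2 / 4))) * (1 + d ^ 2) =
      |r| * ((1 - Real.exp (-(b * d ^ 2 / 4))) * (1 + d ^ 2)) := by ring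
    _ ≤ |r| * ((b / 4 + 1) * d ^ 2) := by gcongr
    _ = (b / 4 + 1) * (|r| * d ^ 2) := by ring
    _ ≤ (b / 4 + 1) * (C * (4 * Real.pi ^ 2) / L ^ 2) := by gcongr
    _ = (b / 4 + 1) * (C * (4 * Real.pi ^ 2)) / L ^ 2 := by ring

/-- integration of the pair sum over the frequency -/
lemma int_pair {e : ℝ} (he : 0 < e) (Z : Finset ℂ) (m : ℂ → ℝ) (b θ L : ℝ) :
    ∫ α : ℝ, tri e (α - θ) * (∑ s ∈ Z, ∑ s' ∈ Z, m s * m s' *
        (Real.cos (α * L * (s.im - s'.im)) * Real.exp (-(b * (s.im - s'.im) ^ 2 / 4)))) =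
      ∑ s ∈ Z, ∑ s' ∈ Z, m s * m s' *
        (KK e ((s.im - s'.im) * L / (2 * Real.pi)) *
          Real.cos (2 * Real.pi * θ * ((s.im - s'.im) * L / (2 * Real.pi))) *
          Real.exp (-(b * (s.im - s'.im) ^ 2 / 4))) := by
  have hpi := Real.pi_pos
  simp_rw [Finset.mul_sum]
  have hc : ∀ s s' : ℂ, Continuous fun α : ℝ => m s * m s' *
        (Real.cos (α * L * (s.im - s'.im)) * Real.exp (-(b * (s.im - s'.im) ^ 2 / 4))) := by
    intro s s'
    fun_prop
  rw [integral_finsetSum]
  swap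
  · intro s _
    exact integrable_finsetSum _ fun s' _ => tri_shift_integrable he θ (hc s s')
  refine Finset.sum_congr rfl fun s _ => ?_
  rw [integral_finsetSum]
  swap
  · intro s' _
    exact tri_shift_integrable he θ (hc s s')
  refine Finset.sum_congr rfl fun s' _ => ?_
  have h1 : ∀ α : ℝ, tri e (α - θ) * (m s * m s' *
        (Real.cos (α * L * (s.im - s'.im)) * Real.exp (-(b * (s.im - s'.im) ^ 2 / 4)))) =
      (m s * m s' * Real.exp (-(b * (s.im - s'.im) ^ 2 / 4))) *
        (tri e (α - θ) * Real.cos (2 * Real.pi * α * ((s.im - s'.im) * L / (2 * Real.pi)))) := by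
    intro α
    have e1 : 2 * Real.pi * α * ((s.im - s'.im) * L / (2 * Real.pi)) = α * L * (s.im - s'.im) := by
      field_simp
    rw [e1]
    ring
  simp_rw [h1]
  rw [integral_const_mul, tri_shift he]
  ring

theorem main (hRH : RiemannHypothesis) : GaussLower → BlockLower := by
  intro hG e θ' ε he hθ1 hθ2 hε
  have hpi := Real.pi_pos
  set δ : ℝ := min 1 (min (ε / 8) ((3 / 2 - θ' - e) / 4)) with hδ
  have hδ0 : 0 < δ := by
    apply lt_min one_pos
    apply lt_min (by positivity)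
    linarith
  have hδ1 : δ ≤ 1 := min_le_left _ _
  have hδ2 : δ ≤ ε / 8 := (min_le_right _ _).trans (min_le_left _ _)
  have hδ3 : δ ≤ (3 / 2 - θ' - e) / 4 := (min_le_right _ _).trans (min_le_right _ _)
  obtain ⟨b, T0, hb, hT0, hGL⟩ := hG δ hδ0 hδ1
  obtain ⟨Cw, hCw, hw⟩ := pair_weight good_zeta
  obtain ⟨C5, hC5, hNN⟩ := nn_short good_zeta
  set K : ℝ := (b / 4 + 1) * (1 / e * (4 * Real.pi ^ 2)) with hK
  have hK0 : 0 < K := by positivity
  obtain ⟨T1, hT1⟩ := (Real.tendsto_log_atTop.eventually_ge_atTop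
    (4 * Real.pi * (K * Cw * (1 + 5 * C5)) / (ε * e))).exists_forall_of_atTop
  refine ⟨max T0 T1, hT0.trans (le_max_left _ _), fun T hT => ?_⟩
  have hTT0 : T0 ≤ T := (le_max_left _ _).trans hT
  have hlog := hT1 T ((le_max_right _ _).trans hT)
  have hT10 : 10 ≤ T := hT0.trans hTT0
  have hTpos : 0 < T := by linarith
  obtain ⟨U1, U2, h1, h2, h3, h4, hA⟩ := hGL T hTT0
  refine ⟨U1, U2, h1, h2, h3, h4, ?_⟩
  set L : ℝ := Real.log T with hLdef
  have hL1 : 1 ≤ L := by
    rw [hLdef, Real.le_log_iff_exp_le hTpos]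
    have := Real.exp_one_lt_d9
    linarith
  have hL : 0 < L := by linarith
  have hU1 : 1 ≤ U1 := by linarith
  set X : ℝ := T / (2 * Real.pi) * L with hX
  have hX0 : 0 < X := by positivity
  set Z := Zf riemannZeta U1 U2 with hZ
  set m : ℂ → ℝ := fun s => (mult riemannZeta s : ℝ) with hm
  have hm0 : ∀ s, 0 ≤ m s := fun s => Nat.cast_nonneg _
  -- the integrated inequality
  have hcPP : Continuous fun α : ℝ => ∑ s ∈ Z, ∑ s' ∈ Z, m s * m s' *
        (Real.cos (α * L * (s.im - s'.im)) * Real.exp (-(b * (s.im - s'.im) ^ 2 / 4))) := by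
    refine continuous_finsetSum _ fun s _ => continuous_finsetSum _ fun s' _ => ?_
    fun_prop
  have hint : (3 / 2 - θ' - 4 * δ) * e * X ≤
      ∫ α : ℝ, tri e (α - θ') * (∑ s ∈ Z, ∑ s' ∈ Z, m s * m s' *
        (Real.cos (α * L * (s.im - s'.im)) * Real.exp (-(b * (s.im - s'.im) ^ 2 / 4)))) := by
    have hleft : ∫ α : ℝ, tri e (α - θ') * ((3 / 2 - |α| - 4 * δ) * X) =
        (3 / 2 - θ' - 4 * δ) * e * X := by
      have g1 : ∀ α : ℝ, tri e (α - θ') * ((3 / 2 - |α| - 4 * δ) * X) =
          ((3 / 2 - 4 * δ) * X) * (tri e (α - θ') * Real.cos (2 * Real.pi * α * 0)) -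
            X * (tri e (α - θ') * |α|) := by
        intro α
        rw [mul_zero, Real.cos_zero]
        ring
      simp_rw [g1]
      rw [integral_sub ((tri_shift_integrable he θ' (by fun_prop)).const_mul _)
        ((tri_shift_integrable he θ' continuous_abs).const_mul _), integral_const_mul,
        integral_const_mul, tri_shift he, tri_abs he (by linarith), KK_zero he]
      simp
      ring
    rw [← hleft]
    apply integral_mono (tri_shift_integrable he θ' (by fun_prop))
      (tri_shift_integrable he θ' hcPP)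
    intro α
    show tri e (α - θ') * ((3 / 2 - |α| - 4 * δ) * X) ≤ tri e (α - θ') * _
    rcases le_or_gt e |α - θ'| with h | h
    · rw [tri_zero he h, zero_mul, zero_mul]
    · obtain ⟨g1, g2⟩ := abs_lt.1 h
      apply mul_le_mul_of_nonneg_left _ (tri_nonneg _ _)
      have g3 : 1 ≤ α := by linarith
      have g4 := hA α g3 (by linarith)
      rw [PPair_rh hRH hU1] at g4
      rw [abs_of_nonneg (by linarith)]
      exact g4
  rw [int_pair he] at hint
  -- the difference between the weighted and the unweighted sum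
  have hdiff : |(∑ s ∈ Z, ∑ s' ∈ Z, m s * m s' *
        (KK e ((s.im - s'.im) * L / (2 * Real.pi)) *
          Real.cos (2 * Real.pi * θ' * ((s.im - s'.im) * L / (2 * Real.pi))) *
          Real.exp (-(b * (s.im - s'.im) ^ 2 / 4)))) -
      ∑ s ∈ Z, ∑ s' ∈ Z, m s * m s' *
        (KK e ((s.im - s'.im) * L / (2 * Real.pi)) *
          Real.cos (2 * Real.pi * θ' * ((s.im - s'.im) * L / (2 * Real.pi))))| ≤
      K / L ^ 2 * (Cw * L * NN riemannZeta U1 U2) := by
    rw [← Finset.sum_sub_distrib]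
    simp_rw [← Finset.sum_sub_distrib]
    have hw1 := hw T hT10 U1 U2 h1 (by linarith)
    calc _ ≤ ∑ s ∈ Z, ∑ s' ∈ Z, |m s * m s' *
        (KK e ((s.im - s'.im) * L / (2 * Real.pi)) *
          Real.cos (2 * Real.pi * θ' * ((s.im - s'.im) * L / (2 * Real.pi))) *
          Real.exp (-(b * (s.im - s'.im) ^ 2 / 4))) -
        m s * m s' *
        (KK e ((s.im - s'.im) * L / (2 * Real.pi)) *
          Real.cos (2 * Real.pi * θ' * ((s.im - s'.im) * L / (2 * Real.pi))))| :=
          (Finset.abs_sum_le_sum_abs _ _).trans (Finset.sum_le_sum fun s _ =>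
            Finset.abs_sum_le_sum_abs _ _)
      _ ≤ ∑ s ∈ Z, ∑ s' ∈ Z, K / L ^ 2 * (m s * m s' * (1 / (1 + (s.im - s'.im) ^ 2))) := by
          refine Finset.sum_le_sum fun s _ => Finset.sum_le_sum fun s' _ => ?_
          have hmm : 0 ≤ m s * m s' := mul_nonneg (hm0 s) (hm0 s')
          rw [← mul_sub, abs_mul, abs_of_nonneg hmm]
          have g2 := drop_gauss b L (s.im - s'.im) (1 / e)
            (KK e ((s.im - s'.im) * L / (2 * Real.pi)) *
              Real.cos (2 * Real.pi * θ' * ((s.im - s'.im) * L / (2 * Real.pi)))) hb hL (by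
              rw [abs_mul, abs_of_nonneg (KK_nonneg he _)]
              have c1 := Real.abs_cos_le_one
                (2 * Real.pi * θ' * ((s.im - s'.im) * L / (2 * Real.pi)))
              have c2 := KK_sq he ((s.im - s'.im) * L / (2 * Real.pi))
              have c3 := KK_nonneg he ((s.im - s'.im) * L / (2 * Real.pi))
              calc _ ≤ KK e ((s.im - s'.im) * L / (2 * Real.pi)) * 1 *
                    ((s.im - s'.im) * L / (2 * Real.pi)) ^ 2 := by gcongr
                _ ≤ _ := by rw [mul_one]; exact c2)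
          calc _ ≤ m s * m s' * (K / L ^ 2 * (1 / (1 + (s.im - s'.im) ^ 2))) := by
                rw [hK]
                gcongr
            _ = _ := by ring
      _ = K / L ^ 2 * ∑ s ∈ Z, ∑ s' ∈ Z, (m s * m s' * (1 / (1 + (s.im - s'.im) ^ 2))) := by
          rw [Finset.mul_sum]
          refine Finset.sum_congr rfl fun s _ => ?_
          rw [Finset.mul_sum]
      _ ≤ _ := by gcongr
  -- the number of zeros
  have hNNb : (NN riemannZeta U1 U2 : ℝ) ≤ (1 + 5 * C5) * (T * L) := by
    have g1 := hNN T hT10 U1 U2 h1 (by linarith) h4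
    have g2 := (abs_le.1 g1).2
    have hs : 0 < Real.sqrt T := Real.sqrt_pos.2 hTpos
    have g3 : L ≤ 2 * Real.sqrt T := by
      have g4 := Real.log_le_sub_one_of_pos hs
      have g5 : L = 2 * Real.log (Real.sqrt T) := by
        rw [hLdef, Real.log_sqrt hTpos.le]
        ring
      linarith
    have g6 : L ^ 2 ≤ 4 * T := by
      have g7 := Real.sq_sqrt hTpos.le
      nlinarith
    have g8 : (U2 - U1) * L / (2 * Real.pi) ≤ T * L := by
      rw [div_le_iff₀ (by positivity)]
      have g9 : (U2 - U1) * L ≤ T * L := by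
        apply mul_le_mul_of_nonneg_right _ hL.le
        linarith
      have g10 : 1 ≤ 2 * Real.pi := by linarith [Real.pi_gt_three]
      have g11 : 0 ≤ T * L := by positivity
      nlinarith
    have g12 : C5 * ((U2 - U1) + L ^ 2) ≤ C5 * (5 * T) := by
      apply mul_le_mul_of_nonneg_left _ hC5.le
      linarith
    have g13 : T ≤ T * L := by nlinarith
    nlinarith
  have herr : K / L ^ 2 * (Cw * L * NN riemannZeta U1 U2) ≤ ε / 2 * e * X := by
    have hεe : 0 < ε * e := by positivity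
    rw [div_le_iff₀ hεe] at hlog
    calc K / L ^ 2 * (Cw * L * NN riemannZeta U1 U2)
        ≤ K / L ^ 2 * (Cw * L * ((1 + 5 * C5) * (T * L))) := by gcongr
      _ = K * Cw * (1 + 5 * C5) * T := by
          field_simp
      _ ≤ ε / 2 * e * X := by
          rw [hX]
          have g1 : ε / 2 * e * (T / (2 * Real.pi) * L) =
              (L * (ε * e)) / (4 * Real.pi) * T := by
            field_simp
            ring
          rw [g1]
          apply mul_le_mul_of_nonneg_right _ hTpos.le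
          rw [le_div_iff₀ (by positivity)]
          linarith
  have hQ : QQ T U1 U2 e θ' = ∑ s ∈ Z, ∑ s' ∈ Z, m s * m s' *
        (KK e ((s.im - s'.im) * L / (2 * Real.pi)) *
          Real.cos (2 * Real.pi * θ' * ((s.im - s'.im) * L / (2 * Real.pi)))) := by
    have g1 := double_conv hRH (A := U1) (B := U2) hU1 (fun y y' =>
      KK e ((y - y') * L / (2 * Real.pi)) *
        Real.cos (2 * Real.pi * θ' * ((y - y') * L / (2 * Real.pi))))
    rw [hm, hZ, g1]
    unfold QQ
    refine Finset.sum_congr rfl fun n _ => Finset.sum_congr rfl fun n' _ => ?_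
    have g2 : yy T n - yy T n' = (ord n - ord n') * L / (2 * Real.pi) := by
      unfold yy
      ring
    rw [g2]
  rw [hQ]
  have h7 := (abs_le.1 hdiff).2
  have h8 : 0 ≤ e * X := by positivity
  have h9 : (3 / 2 - θ' - ε) * e * X ≤ (3 / 2 - θ' - 4 * δ) * e * X - ε / 2 * e * X := by
    have : (3 / 2 - θ' - 4 * δ) * e * X - ε / 2 * e * X - (3 / 2 - θ' - ε) * e * X =
        (ε / 2 - 4 * δ) * (e * X) := by ring
    have h10 : 0 ≤ (ε / 2 - 4 * δ) * (e * X) := mul_nonneg (by linarith) h8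
    linarith
  linarith

end Pool.Agent.W762.AHP2
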